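import Pool.Agent.FrobTate.Crit

/-!
# Relations decompose along separated blocks
-/

namespace Pool.Agent.CMTower

open Finset Pool.Agent.CMParity Pool.Agent.FrobTate

section

variable {X : Type*} [Fintype X] {H : Subgroup (Equiv.Perm X)} {inv : X → X}
  {w : X → ℤ} {B : Type*} {blk : X → B}

open scoped Classical in
/-- The restriction of a relation to a separated block is a relation. -/
theorem relL_block (hcomm : ∀ π ∈ H, ∀ x, π (inv x) = inv (π x)) (b : B)
    (hsep : ∀ y, blk y ≠ b → ∃ g ∈ H, (∀ z, blk z = b → g z = z) ∧ g y = inv y)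
    {c : X → ℤ} (hc : c ∈ relL H inv w) :
    (fun x => if blk x = b then c x else 0) ∈ relL H inv w := by
  let S : Subgroup (Equiv.Perm X) :=
    { carrier := {g | g ∈ H ∧ ∀ z, blk z = b → g z = z}
      one_mem' := ⟨H.one_mem, fun z _ => rfl⟩
      mul_mem' := by
        rintro g g' ⟨h1, h2⟩ ⟨h3, h4⟩
        refine ⟨H.mul_mem h1 h3, fun z hz => ?_⟩
        rw [Equiv.Perm.mul_apply, h4 z hz, h2 z hz]
      inv_mem' := by
        rintro g ⟨h1, h2⟩
        refine ⟨H.inv_mem h1, fun z hz => ?_⟩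
        rw [Equiv.Perm.inv_eq_iff_eq, h2 z hz] }
  have hS : ∀ g : S, g.1 ∈ H := fun g => g.2.1
  have hfix : ∀ (g : S) z, blk z = b → g.1 z = z := fun g => g.2.2
  have h1 : (fun x => ∑ g : S, c (g.1 x)) ∈ relL H inv w := by
    have h2 : (fun x => ∑ g : S, c (g.1 x)) = ∑ g : S, fun x => c (g.1 x) := by
      funext x
      rw [Finset.sum_apply]
    rw [h2]
    refine AddSubgroup.sum_mem _ fun g _ => ?_
    exact relL_stab hcomm (⟨g.1, hS g⟩ : H) c hc
  have h2 : (fun x => ∑ g : S, c (g.1 x)) =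
      fun x => ((Fintype.card S : ℕ) : ℤ) * (if blk x = b then c x else 0) := by
    funext x
    by_cases hx : blk x = b
    · rw [if_pos hx, sum_congr rfl fun g _ => by rw [hfix g x hx], sum_const, card_univ,
        nsmul_eq_mul]
    · rw [if_neg hx, mul_zero]
      obtain ⟨g₀, hg₀, hg₀b, hg₀x⟩ := hsep x hx
      let a : S := ⟨g₀, hg₀, hg₀b⟩
      have h3 : ∑ g : S, c (g.1 (inv x)) = ∑ g : S, c (g.1 x) := by
        refine Fintype.sum_equiv (Equiv.mulRight a) _ _ fun g => ?_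
        change c (g.1 (inv x)) = c ((g.1 * g₀) x)
        rw [Equiv.Perm.mul_apply, hg₀x]
      have h4 : ∑ g : S, c (g.1 (inv x)) = - ∑ g : S, c (g.1 x) := by
        rw [← sum_neg_distrib]
        refine sum_congr rfl fun g _ => ?_
        rw [hcomm g.1 (hS g), hc.1]
      linarith
  rw [h2] at h1
  exact relL_sat _ Fintype.card_ne_zero _ h1

end

/-- **Parity criterion for separated blocks.** -/
theorem tower_criterion {X T B : Type*} [Fintype X] [DecidableEq X]
    (H : Subgroup (Equiv.Perm X)) (cls : X → T) (blk : X → B)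
    (hcls : ∀ π ∈ H, ∀ x, cls (π x) = cls x)
    (htr : ∀ x y, cls x = cls y → ∃ π ∈ H, π x = y)
    (inv : X → X) (hinv : ∀ x, inv (inv x) = x) (hcomm : ∀ π ∈ H, ∀ x, π (inv x) = inv (π x))
    (hblkH : ∀ π ∈ H, ∀ x y, blk x = blk y → blk (π x) = blk (π y))
    (hblk : ∀ x, blk (inv x) = blk x)
    (hsep : ∀ x y, blk y ≠ blk x → ∃ g ∈ H, (∀ z, blk z = blk x → g z = z) ∧ g y = inv y)
    (hpow : ∀ x, ∃ n : ℕ, {y | blk y = blk x ∧ cls y = cls x}.ncard = 2 ^ n)
    (w : X → ℤ) (hw : ∀ x, w (inv x) = - w x)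
    (hgood : ∀ x₀ : X, ∃ g ∈ H, ∃ (k : ℝ) (r : X → ℤ), k ≠ 0 ∧
      (∀ y, blk y = blk (g x₀) → Odd (r y) ∧ (w y : ℝ) = k * r y) ∧
      ∀ S : Set T, (∃ y, blk y = blk (g x₀) ∧ cls y ∈ S) → ∃ τ ∈ H,
        (∀ y, blk y = blk (g x₀) → blk (τ y) = blk (g x₀)) ∧ ∃ F : Finset X,
        (∀ y, y ∈ F ↔ blk y = blk (g x₀) ∧ 0 < r y ∧ cls y ∈ S ∧ r (τ y) < 0) ∧ Odd F.card)
    (c : X → ℤ) (hc : ∀ x, c (inv x) = - c x)
    (hrel : ∀ π ∈ H, ∑ x, c x * w (π x) = 0) : c = 0 := by
  classical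
  by_contra hc0
  obtain ⟨x₀, hx₀⟩ : ∃ x, c x ≠ 0 := by
    by_contra hcon
    push Not at hcon
    exact hc0 (funext hcon)
  have h1 : (fun x => if blk x = blk x₀ then c x else 0) ∈ relL H inv w :=
    relL_block hcomm (blk x₀) (fun y hy => hsep x₀ y hy) ⟨hc, hrel⟩
  obtain ⟨g, hg, k, r, hk, hr, hodd⟩ := hgood x₀
  set b := blk (g x₀) with hb
  -- the translate
  let c₂ : X → ℤ := fun x => if blk (g⁻¹ x) = blk x₀ then c (g⁻¹ x) else 0
  have hc₂ : c₂ ∈ relL H inv w :=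
    relL_stab hcomm (⟨g⁻¹, H.inv_mem hg⟩ : H) _ h1
  have hc₂b : ∀ x, blk x ≠ b → c₂ x = 0 := by
    intro x hx
    refine if_neg fun h => hx ?_
    have h2 := hblkH g hg _ _ h
    have h3 : g (g⁻¹ x) = x := g.apply_symm_apply x
    rw [h3] at h2
    exact h2
  have hc₂x : c₂ (g x₀) ≠ 0 := by
    have h3 : g⁻¹ (g x₀) = x₀ := g.symm_apply_apply x₀
    change (if blk (g⁻¹ (g x₀)) = blk x₀ then c (g⁻¹ (g x₀)) else 0) ≠ 0
    rw [h3, if_pos rfl]
    exact hx₀
  let Y : Type _ := {x : X // blk x = b}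
  let H' : Subgroup (Equiv.Perm Y) :=
    { carrier := {σ | ∃ π ∈ H, ∀ x : Y, ((σ x : Y) : X) = π x.1}
      one_mem' := ⟨1, H.one_mem, fun x => rfl⟩
      mul_mem' := by
        rintro σ σ' ⟨π, hπ, h⟩ ⟨π', hπ', h'⟩
        refine ⟨π * π', H.mul_mem hπ hπ', fun x => ?_⟩
        rw [Equiv.Perm.mul_apply, h, h', Equiv.Perm.mul_apply]
      inv_mem' := by
        rintro σ ⟨π, hπ, h⟩
        refine ⟨π⁻¹, H.inv_mem hπ, fun x => ?_⟩
        rw [Equiv.Perm.eq_inv_iff_eq, ← h (σ⁻¹ x)]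
        congr 1
        exact σ.apply_symm_apply x }
  -- an element of `H` preserving the block
  have hres : ∀ π ∈ H, (∀ y, blk y = b → blk (π y) = b) →
      ∃ σ ∈ H', ∀ x : Y, ((σ x : Y) : X) = π x.1 := by
    intro π hπ hπb
    let σ₀ : Y → Y := fun x => ⟨π x.1, hπb x.1 x.2⟩
    have hinj : Function.Injective σ₀ := by
      intro x y hxy
      apply Subtype.ext
      exact π.injective (congrArg Subtype.val hxy)
    let σ : Equiv.Perm Y := Equiv.ofBijective σ₀ (Finite.injective_iff_bijective.mp hinj)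
    exact ⟨σ, ⟨π, hπ, fun x => rfl⟩, fun x => rfl⟩
  let inv' : Y → Y := fun x => ⟨inv x.1, by rw [hblk]; exact x.2⟩
  have key : (fun x : Y => c₂ x.1) = 0 := by
    refine odd_weight_criterion H' (fun x : Y => cls x.1) ?_ ?_ ?_ inv' ?_ ?_
      (fun x : Y => r x.1) ?_ ?_ ?_ (fun x : Y => c₂ x.1) ?_ ?_
    · rintro σ ⟨π, hπ, h⟩ x
      change cls (σ x).1 = cls x.1
      rw [h, hcls π hπ]
    · intro x y hxy
      obtain ⟨π, hπ, hπx⟩ := htr x.1 y.1 hxy
      obtain ⟨σ, hσ, hσπ⟩ := hres π hπ (by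
        intro z hz
        have h2 := hblkH π hπ z x.1 (hz.trans x.2.symm)
        rw [h2, hπx]
        exact y.2)
      refine ⟨σ, hσ, Subtype.ext ?_⟩
      rw [hσπ, hπx]
    · intro x
      obtain ⟨n, hn⟩ := hpow x.1
      refine ⟨n, ?_⟩
      rw [← hn]
      have h2 : {y : X | blk y = blk x.1 ∧ cls y = cls x.1} =
          Subtype.val '' {y : Y | cls y.1 = cls x.1} := by
        ext y
        constructor
        · rintro ⟨h3, h4⟩
          exact ⟨⟨y, h3.trans x.2⟩, h4, rfl⟩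
        · rintro ⟨z, hz, rfl⟩
          exact ⟨z.2.trans x.2.symm, hz⟩
      rw [h2, Set.ncard_image_of_injective _ Subtype.val_injective]
    · intro x
      exact Subtype.ext (hinv x.1)
    · rintro σ ⟨π, hπ, h⟩ x
      apply Subtype.ext
      rw [h]
      change π (inv x.1) = inv (σ x).1
      rw [h, hcomm π hπ]
    · intro x
      exact (hr x.1 x.2).1
    · intro x
      have h2 := (hr x.1 x.2).2
      have h3 := (hr (inv x.1) (by rw [hblk]; exact x.2)).2
      rw [hw] at h3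
      push_cast at h3
      rw [h2] at h3
      have h4 : (r (inv x.1) : ℝ) = - r x.1 := by
        apply mul_left_cancel₀ hk
        rw [← h3]
        ring
      change r (inv x.1) = - r x.1
      exact_mod_cast h4
    · rintro S ⟨x, hx⟩
      obtain ⟨τ, hτ, hτb, F, hF, hFodd⟩ := hodd S ⟨x.1, x.2, hx⟩
      obtain ⟨σ, hσ, hστ⟩ := hres τ hτ hτb
      refine ⟨σ, hσ, F.subtype (fun y => blk y = b), fun y => ?_, ?_⟩
      · rw [Finset.mem_subtype, hF]
        change _ ↔ 0 < r y.1 ∧ cls y.1 ∈ S ∧ r (σ y).1 < 0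
        rw [hστ]
        exact and_iff_right y.2
      · rw [Finset.card_subtype, Finset.filter_true_of_mem fun y hy => ((hF y).mp hy).1]
        exact hFodd
    · intro x
      exact hc₂.1 x.1
    · rintro σ ⟨π, hπ, h⟩
      have h2 := hc₂.2 π hπ
      have h3 : ∑ x : X, c₂ x * w (π x) = ∑ x : Y, c₂ x.1 * w (π x.1) := by
        rw [← Finset.sum_subtype (univ.filter fun x => blk x = b)
          (fun x => by rw [mem_filter]; exact and_iff_right (mem_univ x))
          (fun x => c₂ x * w (π x))]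
        symm
        refine Finset.sum_subset (Finset.subset_univ _) fun x _ hx => ?_
        rw [hc₂b x (fun h4 => hx (mem_filter.mpr ⟨mem_univ x, h4⟩)), zero_mul]
      rw [h3] at h2
      have h4 : k * ((∑ x : Y, c₂ x.1 * r (σ x).1 : ℤ) : ℝ) = 0 := by
        have h5 : ((∑ x : Y, c₂ x.1 * w (π x.1) : ℤ) : ℝ) = 0 := by exact_mod_cast h2
        rw [← h5]
        push_cast
        rw [mul_sum]
        refine sum_congr rfl fun x _ => ?_
        rw [← h, (hr (σ x).1 (σ x).2).2]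
        ring
      have h5 := (mul_eq_zero.mp h4).resolve_left hk
      exact_mod_cast h5
  exact hc₂x (congrFun key ⟨g x₀, rfl⟩)

end Pool.Agent.CMTower
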