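import Pool.Agent.IndepCM.Defs

/-!
# Separated families of towers of fields

Definitions used in the statements. `valueField χ` is the subfield of `ℂ` generated by the values
of `χ`, and `realField` is the field of real numbers inside `ℂ`.
-/

namespace Pool.Agent.CMTower

open Pool.Agent.IndepCM

variable {τ : Type} {ι : τ → Type} {L : τ → Type} [∀ t, Field (L t)]
  (K : ∀ t, ι t → Type) [∀ t i, Field (K t i)] [∀ t i, Algebra (L t) (K t i)]

/-- The compositum of the images of the fields `K t i` under all embeddings extending `ρ`. -/
noncomputable def overField (t : τ) (ρ : L t →+* ℂ) : IntermediateField ℚ ℂ :=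
  ⨆ (i : ι t) (ψ : K t i →+* ℂ) (_ : ψ.comp (algebraMap (L t) (K t i)) = ρ), valueField ψ

/-- The towers `K t i / L t` are separated: for every embedding `ρ` of some `L t` and every
embedding `χ` of some `K u j` whose restriction to `L u` is different from `ρ`, the field
`χ (K u j)` is not contained in the compositum of its maximal real subfield with the images of
the fields `K t i` under the embeddings extending `ρ`. -/
def Separated : Prop :=
  ∀ (t : τ) (ρ : L t →+* ℂ) (u : τ) (j : ι u) (χ : K u j →+* ℂ),
    (⟨u, χ.comp (algebraMap (L u) (K u j))⟩ : Σ t, (L t →+* ℂ)) ≠ ⟨t, ρ⟩ →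
    ¬ valueField χ ≤ (valueField χ ⊓ realField) ⊔ overField K t ρ

end Pool.Agent.CMTower
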