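import Pool.Agent.CMTower.Defs
import Pool.Agent.IndepCM.FieldAut

/-!
# Endomorphisms of `ℂ` fixing a field and conjugating a character
-/

set_option maxSynthPendingDepth 3

namespace Pool.Agent.CMTower

open Complex Pool.Agent.GHC Pool.Agent.IndepCM

universe w

variable {R : Type w} [CommRing R]

theorem exists_aut (F₀ : IntermediateField ℚ ℂ) (hF₀ : F₀ ≤ algebraicClosure ℚ ℂ)
    (χ : R →+* ℂ) (halg : ∀ r, IsIntegral ℚ (χ r))
    (hros : ∀ r, ∃ r', χ r' = (starRingEnd ℂ) (χ r))
    (hind : ¬ valueField χ ≤ (valueField χ ⊓ realField) ⊔ F₀) :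
    ∃ σ : ℂ →+* ℂ, (∀ z ∈ F₀, σ z = z) ∧ σ.comp χ = (starRingEnd ℂ).comp χ := by
  set F : IntermediateField ℚ ℂ := (valueField χ ⊓ realField) ⊔ F₀ with hF
  have hFalg : F ≤ algebraicClosure ℚ ℂ := by
    rw [hF]
    exact sup_le (inf_le_left.trans (valueField_le_algebraic χ halg)) hF₀
  have hFa : Algebra.IsAlgebraic ℚ F := by
    refine ⟨fun x => ?_⟩
    have h1 : IsAlgebraic ℚ (x : ℂ) := mem_algebraicClosure_iff.mp (hFalg x.2)
    exact IntermediateField.isAlgebraic_iff.mpr h1
  have hreal' : ∀ z ∈ valueField χ, z.im = 0 → z ∈ F := fun z hz him =>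
    (le_sup_left : valueField χ ⊓ realField ≤ F) ⟨hz, mem_realField him⟩
  -- a value outside `F`
  obtain ⟨r, hr⟩ : ∃ r, χ r ∉ F := by
    by_contra hcon
    push Not at hcon
    apply hind
    unfold valueField
    rw [IntermediateField.adjoin_le_iff]
    rintro _ ⟨r, rfl⟩
    exact hcon r
  have hconj : ∀ r, (starRingEnd ℂ) (χ r) ∈ valueField χ := by
    intro r
    obtain ⟨r', hr'⟩ := hros r
    rw [← hr']
    exact mem_valueField χ r'
  have hplus : ∀ r, χ r + (starRingEnd ℂ) (χ r) ∈ F := by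
    intro r
    refine hreal' _ (add_mem (mem_valueField χ r) (hconj r)) ?_
    simp
  set β : ℂ := χ r - (starRingEnd ℂ) (χ r) with hβ
  have hβv : β ∈ valueField χ := sub_mem (mem_valueField χ r) (hconj r)
  have htwo : (2 : ℂ) ∈ F := by exact_mod_cast F.algebraMap_mem (2 : ℚ)
  have hβF : β ∉ F := by
    intro h
    apply hr
    have h1 : χ r = ((χ r + (starRingEnd ℂ) (χ r)) + β) / 2 := by
      rw [hβ]
      ring
    rw [h1]
    exact F.div_mem (F.add_mem (hplus r) h) htwo
  have him : ∀ s, (χ s - (starRingEnd ℂ) (χ s)).re = 0 := by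
    intro s
    simp
  have hprod : ∀ s, (χ s - (starRingEnd ℂ) (χ s)) * β ∈ F := by
    intro s
    refine hreal' _ (mul_mem (sub_mem (mem_valueField χ s) (hconj s)) hβv) ?_
    rw [Complex.mul_im, him s, him r, zero_mul, mul_zero, add_zero]
  have hβ2 : β ^ 2 ∈ F := by
    rw [sq]
    exact hprod r
  obtain ⟨σ, hσF, hσβ⟩ := exists_neg_sqrt F hβF hβ2
  have hβ0 : β ≠ 0 := by
    intro h
    apply hβF
    rw [h]
    exact F.zero_mem
  refine ⟨σ, ?_, ?_⟩
  · intro z hz
    exact hσF z ((le_sup_right : F₀ ≤ F) hz)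
  · ext s
    rw [RingHom.comp_apply]
    change σ (χ s) = (starRingEnd ℂ) (χ s)
    set b := χ s - (starRingEnd ℂ) (χ s) with hb
    have h1 : σ b = - b := by
      have h2 : σ (b * β) = b * β := hσF _ (hprod s)
      rw [map_mul, hσβ] at h2
      have h3 : (σ b + b) * β = 0 := by linear_combination -h2
      rcases mul_eq_zero.mp h3 with h4 | h4
      · linear_combination h4
      · exact absurd h4 hβ0
    have h2 : σ (χ s + (starRingEnd ℂ) (χ s)) = χ s + (starRingEnd ℂ) (χ s) := hσF _ (hplus s)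
    have h3 : σ (χ s) + σ ((starRingEnd ℂ) (χ s)) = χ s + (starRingEnd ℂ) (χ s) := by
      rw [← _root_.map_add]
      exact h2
    have h4 : σ (χ s) - σ ((starRingEnd ℂ) (χ s)) = - (χ s - (starRingEnd ℂ) (χ s)) := by
      rw [← map_sub]
      exact h1
    linear_combination (h3 + h4) / 2

variable {τ : Type} {ι : τ → Type} {L : τ → Type} [∀ t, Field (L t)]
  {K : ∀ t, ι t → Type} [∀ t i, Field (K t i)] [∀ t i, NumberField (K t i)]
  [∀ t i, Algebra (L t) (K t i)]

omit [∀ t i, NumberField (K t i)] in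
theorem valueField_le_overField (t : τ) (ρ : L t →+* ℂ) (i : ι t) (ψ : K t i →+* ℂ)
    (h : ψ.comp (algebraMap (L t) (K t i)) = ρ) : valueField ψ ≤ overField K t ρ := by
  unfold overField
  exact le_iSup_of_le i (le_iSup_of_le ψ (le_iSup_of_le h le_rfl))

theorem overField_le_algebraic (t : τ) (ρ : L t →+* ℂ) :
    overField K t ρ ≤ algebraicClosure ℚ ℂ := by
  unfold overField
  refine iSup_le fun i => iSup_le fun ψ => iSup_le fun _ => ?_
  refine valueField_le_algebraic ψ fun r => ?_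
  have h2 : IsIntegral ℚ r := Algebra.IsIntegral.isIntegral r
  exact h2.map ψ.toRatAlgHom

end Pool.Agent.CMTower
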