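import Pool.Agent.CMParity.Sign

/-!
# Relative discriminants
-/

namespace Pool.Agent.CMTower

open Finset Module Pool.Agent.CMParity

section

variable {L K : Type} [Field L] [Field K] [NumberField L] [NumberField K] [Algebra L K]

/-- The embeddings of `K` in `ℂ` extending `ρ`. -/
abbrev Over (K : Type) [Field K] {L : Type} [Field L] [Algebra L K] (ρ : L →+* ℂ) : Type :=
  {χ : K →+* ℂ // χ.comp (algebraMap L K) = ρ}

theorem exists_equiv_over (ρ : L →+* ℂ) :
    letI : Algebra L ℂ := ρ.toAlgebra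
    Nonempty ((K →ₐ[L] ℂ) ≃ Over K ρ) ∧ ∃ E : (K →ₐ[L] ℂ) ≃ Over K ρ, ∀ φ, (E φ).1 = φ.toRingHom := by
  let : Algebra L ℂ := ρ.toAlgebra
  let E : (K →ₐ[L] ℂ) ≃ Over K ρ :=
    { toFun := fun φ => ⟨φ.toRingHom, by
        ext x
        exact φ.commutes x⟩
      invFun := fun χ => { χ.1 with
        commutes' := fun x => by
          have := congrArg (fun f : L →+* ℂ => f x) χ.2
          exact this }
      left_inv := fun φ => rfl
      right_inv := fun χ => rfl }
  exact ⟨⟨E⟩, E, fun φ => rfl⟩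

theorem card_over (ρ : L →+* ℂ) : Nat.card (Over K ρ) = finrank L K := by
  let : Algebra L ℂ := ρ.toAlgebra
  obtain ⟨⟨E⟩, -⟩ := exists_equiv_over (K := K) ρ
  rw [← Nat.card_congr E, Nat.card_eq_fintype_card]
  exact AlgHom.card L K ℂ

theorem exists_relsqrt (ρ : L →+* ℂ) {κ : Type} [Fintype κ] [DecidableEq κ] (b : Basis κ L K)
    (inv : (K →+* ℂ) → (K →+* ℂ))
    (hinv : ∀ χ, χ.comp (algebraMap L K) = ρ → inv (inv χ) = χ)
    (hinvρ : ∀ χ, χ.comp (algebraMap L K) = ρ → (inv χ).comp (algebraMap L K) = ρ)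
    (Φ : Finset (K →+* ℂ)) (hΦ : ∀ χ, χ.comp (algebraMap L K) = ρ → (inv χ ∈ Φ ↔ χ ∉ Φ)) :
    ∃ D : ℂ, D ^ 2 = ρ (Algebra.discr L b) ∧ ∀ σ : ℂ →+* ℂ, σ.comp ρ = ρ →
      (∀ χ, χ.comp (algebraMap L K) = ρ → σ.comp (inv χ) = inv (σ.comp χ)) →
      ∀ F : Finset (K →+* ℂ),
        (∀ χ, χ ∈ F ↔ χ.comp (algebraMap L K) = ρ ∧ χ ∈ Φ ∧ σ.comp χ ∉ Φ) →
        σ D = (-1) ^ F.card * D := by
  classical
  let : Algebra L ℂ := ρ.toAlgebra
  obtain ⟨-, E, hE⟩ := exists_equiv_over (K := K) ρ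
  have hE' : ∀ (χ : Over K ρ) x, E.symm χ x = χ.1 x := by
    intro χ x
    have h1 := hE (E.symm χ)
    rw [Equiv.apply_symm_apply] at h1
    rw [h1]
    rfl
  have hcard : Fintype.card κ = Fintype.card (Over K ρ) := by
    rw [← Nat.card_eq_fintype_card (α := Over K ρ), card_over, Module.finrank_eq_card_basis b]
  let e : κ ≃ Over K ρ := Fintype.equivOfCardEq hcard
  let M : Matrix κ κ ℂ := Algebra.embeddingsMatrixReindex L ℂ b (e.trans E.symm)
  have hM : ∀ i j, M i j = (e j).1 (b i) := by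
    intro i j
    exact hE' (e j) (b i)
  refine ⟨M.det, ?_, ?_⟩
  · rw [← Algebra.discr_eq_det_embeddingsMatrixReindex_pow_two L ℂ (b : κ → K) (e.trans E.symm)]
    rfl
  · intro σ hσ hcomm F hF
    have hσo : ∀ χ : Over K ρ, (σ.comp χ.1).comp (algebraMap L K) = ρ := by
      intro χ
      rw [RingHom.comp_assoc, χ.2, hσ]
    let p₀ : Over K ρ → Over K ρ := fun χ => ⟨σ.comp χ.1, hσo χ⟩
    have hinj : Function.Injective p₀ := by
      intro χ ψ h
      have h1 : σ.comp χ.1 = σ.comp ψ.1 := congrArg Subtype.val h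
      refine Subtype.ext (RingHom.ext fun x => σ.injective ?_)
      exact congrArg (fun f : K →+* ℂ => f x) h1
    let p : Equiv.Perm (Over K ρ) := Equiv.ofBijective p₀ (Finite.injective_iff_bijective.mp hinj)
    have hp : ∀ χ, (p χ).1 = σ.comp χ.1 := fun _ => rfl
    let inv' : Over K ρ → Over K ρ := fun χ => ⟨inv χ.1, hinvρ χ.1 χ.2⟩
    let Φ' : Finset (Over K ρ) := univ.filter fun χ => χ.1 ∈ Φ
    have hΦ' : ∀ χ, χ ∈ Φ' ↔ χ.1 ∈ Φ := fun χ => by
      rw [mem_filter]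
      exact and_iff_right (mem_univ χ)
    have hsign := sign_eq (X := Over K ρ) (inv := inv') (fun χ => Subtype.ext (hinv χ.1 χ.2))
      (Φ := Φ') (fun χ => by rw [hΦ', hΦ']; exact hΦ χ.1 χ.2) p (fun χ => by
        apply Subtype.ext
        rw [hp]
        exact hcomm χ.1 χ.2)
    have hFcard : (Φ'.filter fun χ => p χ ∉ Φ').card = F.card := by
      refine Finset.card_bij (fun χ _ => χ.1) ?_ ?_ ?_
      · intro χ hχ
        rw [mem_filter, hΦ', hΦ'] at hχ
        exact (hF χ.1).mpr ⟨χ.2, hχ.1, hχ.2⟩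
      · intro χ _ ψ _ h
        exact Subtype.ext h
      · intro χ hχ
        obtain ⟨h1, h2, h3⟩ := (hF χ).mp hχ
        exact ⟨⟨χ, h1⟩, by rw [mem_filter, hΦ', hΦ']; exact ⟨h2, h3⟩, rfl⟩
    have h1 : σ M.det = (M.submatrix id (e.symm.permCongr p)).det := by
      rw [RingHom.map_det]
      congr 1
      ext i j
      rw [RingHom.mapMatrix_apply, Matrix.map_apply, Matrix.submatrix_apply, hM, hM, id_eq,
        Equiv.permCongr_apply, Equiv.symm_symm, Equiv.apply_symm_apply, hp]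
      rfl
    rw [h1, Matrix.det_permute', Equiv.Perm.sign_permCongr, hsign, hFcard]
    push_cast
    rfl

end

end Pool.Agent.CMTower
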