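import Pool.Agent.FrobTate.Discr

/-!
# Slopes are rational
-/

namespace Pool.Agent.CMTower

open Finset Module Pool.Agent.CMParity Pool.Agent.FrobTate

variable {p : ℕ} [Fact p.Prime]

theorem exists_norm_pow {z : PadicAlgCl p} (hz : z ≠ 0) :
    ∃ (b : ℕ) (c : ℤ), b ≠ 0 ∧ ‖z‖ ^ b = ((p : ℝ)⁻¹) ^ c := by
  have hint : IsIntegral ℚ_[p] z := (PadicAlgCl.isAlgebraic p).isIntegral.isIntegral z
  have hdeg := (minpoly.natDegree_pos hint).ne'
  have h0 : (minpoly ℚ_[p] z).coeff 0 ≠ 0 := minpoly.coeff_zero_ne_zero hint hz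
  have h1 : ‖z‖ = ‖(minpoly ℚ_[p] z).coeff 0‖ ^ (1 / (minpoly ℚ_[p] z).natDegree : ℝ) :=
    spectralNorm.spectralNorm_eq_norm_coeff_zero_rpow ℚ_[p] (PadicAlgCl p) z
  refine ⟨(minpoly ℚ_[p] z).natDegree, ((minpoly ℚ_[p] z).coeff 0).valuation, hdeg, ?_⟩
  rw [h1, ← Real.rpow_natCast, ← Real.rpow_mul (norm_nonneg _), one_div,
    inv_mul_cancel₀ (by exact_mod_cast hdeg), Real.rpow_one,
    Padic.norm_eq_zpow_neg_valuation h0, inv_zpow, zpow_neg]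

variable {ι : Type} [Fintype ι] {K : ι → Type} [∀ i, Field (K i)] [∀ i, NumberField (K i)]
  {π : ∀ i, K i}

/-- Integral weights. -/
theorem exists_int_weight {a : ℕ} (ha : a ≠ 0) (ip : AA →+* PadicAlgCl p) (hπ : ∀ i, π i ≠ 0) :
    ∃ (N : ℕ) (w : Emb K → ℤ), N ≠ 0 ∧ ∀ x : Emb K,
      ‖ip (lft x.2 (π x.1))‖ ^ (2 * N) =
        ‖((p ^ a : ℕ) : PadicAlgCl p)‖ ^ ((N : ℤ) + w x) := by
  classical
  have h1 : ∀ x : Emb K, ∃ (b : ℕ) (c : ℤ), b ≠ 0 ∧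
      ‖ip (lft x.2 (π x.1))‖ ^ b = ((p : ℝ)⁻¹) ^ c := by
    intro x
    apply exists_norm_pow
    rw [Ne, map_eq_zero_iff ip ip.injective, map_eq_zero_iff (lft x.2) (lft x.2).injective]
    exact hπ x.1
  choose b c hb hbc using h1
  let B : Emb K → ℕ := fun x => ∏ y ∈ univ.erase x, b y
  have hN : ∀ x, ∏ y, b y = b x * B x := fun x => (mul_prod_erase univ b (mem_univ x)).symm
  refine ⟨a * ∏ y, b y, fun x => 2 * c x * B x - a * ∏ y, b y, ?_, fun x => ?_⟩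
  · exact mul_ne_zero ha (Finset.prod_ne_zero_iff.mpr fun x _ => hb x)
  · have h2 : 2 * (a * ∏ y, b y) = b x * (a * (2 * B x)) := by
      rw [hN x]
      ring
    rw [h2, pow_mul, hbc x, norm_q, ← zpow_natCast, ← zpow_natCast, ← zpow_mul, ← zpow_mul]
    congr 1
    push_cast
    ring

end Pool.Agent.CMTower
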