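import Pool.Agent.CMTower.Comb
import Pool.Agent.CMTower.RelDisc
import Pool.Agent.CMTower.FieldAut
import Pool.Agent.CMTower.Slope
import Pool.Agent.FrobTate.Block

/-!
# Tate classes: separated families of towers with independent relative discriminants
-/

namespace Pool.Agent.CMTower

open Finset Module Pool.Agent.CMParity Pool.Agent.FrobTate Pool.Agent.IndepCM

section

variable {τ : Type} {ι : τ → Type} {L : τ → Type} [∀ t, Field (L t)]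
  [∀ t, NumberField (L t)] {K : ∀ t, ι t → Type} [∀ t i, Field (K t i)]
  [∀ t i, NumberField (K t i)] [∀ t i, Algebra (L t) (K t i)] {π : ∀ t i, K t i}

omit [∀ t, NumberField (L t)] [∀ t i, Algebra (L t) (K t i)] in
/-- The values are stable under complex conjugation. -/
theorem exists_conj {q : ℕ} (hq : q ≠ 0) {t : τ} {i : ι t}
    (hgen : Algebra.adjoin ℚ {π t i} = ⊤) (χ : K t i →+* ℂ) (hweil : ‖χ (π t i)‖ ^ 2 = q)
    (r : K t i) : ∃ r', χ r' = (starRingEnd ℂ) (χ r) := by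
  have h0 : (starRingEnd ℂ) (χ (π t i)) = q / χ (π t i) := by
    have h2 : χ (π t i) ≠ 0 := by
      intro h0
      rw [h0, norm_zero] at hweil
      apply hq
      have h3 : (0 : ℝ) = q := by
        rw [← hweil]
        ring
      exact_mod_cast h3.symm
    rw [eq_div_iff h2, ← Complex.normSq_eq_conj_mul_self, Complex.normSq_eq_norm_sq, hweil]
    simp
  have hr : r ∈ Algebra.adjoin ℚ {π t i} := by
    rw [hgen]
    exact Algebra.mem_top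
  refine Algebra.adjoin_induction (p := fun r _ => ∃ r', χ r' = (starRingEnd ℂ) (χ r))
    ?_ ?_ ?_ ?_ hr
  · rintro _ rfl
    exact ⟨q / π t i, by rw [h0, map_div₀, map_natCast]⟩
  · intro c
    refine ⟨algebraMap ℚ _ c, ?_⟩
    simp
  · rintro x y - - ⟨x', hx⟩ ⟨y', hy⟩
    exact ⟨x' + y', by rw [_root_.map_add, hx, hy, _root_.map_add, _root_.map_add]⟩
  · rintro x y - - ⟨x', hx⟩ ⟨y', hy⟩
    exact ⟨x' * y', by rw [map_mul, hx, hy, map_mul, map_mul]⟩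

/-- The index type. -/
abbrev Idx (ι : τ → Type) : Type := Σ t, ι t

/-- The fields. -/
abbrev Fld (K : ∀ t, ι t → Type) : Idx ι → Type := fun x => K x.1 x.2

/-- The block of an embedding. -/
def block (L : τ → Type) [∀ t, Field (L t)] [∀ t i, Algebra (L t) (K t i)]
    (x : Emb (Fld K)) : Σ t, (L t →+* ℂ) :=
  ⟨x.1.1, x.2.comp (algebraMap (L x.1.1) (K x.1.1 x.1.2))⟩

/-- The action on blocks. -/
def bact (σ : ℂ →+* ℂ) (b : Σ t, (L t →+* ℂ)) : Σ t, (L t →+* ℂ) := ⟨b.1, σ.comp b.2⟩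

omit [∀ t, NumberField (L t)] [∀ t i, NumberField (K t i)] in
theorem block_act (σ : ℂ →+* ℂ) (x : Emb (Fld K)) :
    block L (⟨x.1, σ.comp x.2⟩ : Emb (Fld K)) = bact σ (block L x) := rfl

theorem embext {t : τ} {i : ι t} (χ : K t i →+* ℂ) (r : K t i) : IsIntegral ℚ (χ r) := by
  have h2 : IsIntegral ℚ r := Algebra.IsIntegral.isIntegral r
  exact h2.map χ.toRatAlgHom

omit [∀ t, NumberField (L t)] in
theorem block_inv {q : ℕ} (hq : q ≠ 0) (hgen : ∀ t i, Algebra.adjoin ℚ {π t i} = ⊤)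
    (hweil : ∀ t i, ∀ χ : K t i →+* ℂ, ‖χ (π t i)‖ ^ 2 = q)
    (hsep : Separated (L := L) K) (x : Emb (Fld K)) : block L (einv x) = block L x := by
  by_contra hcon
  obtain ⟨⟨t, i⟩, χ⟩ := x
  refine hsep t (χ.comp (algebraMap (L t) (K t i))) t i ((starRingEnd ℂ).comp χ) hcon ?_
  refine le_trans ?_ le_sup_right
  refine le_trans ?_ (valueField_le_overField t _ i χ rfl)
  have h1 : ∀ r, (starRingEnd ℂ) (χ r) ∈ valueField χ := by
    intro r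
    obtain ⟨r', hr'⟩ := exists_conj hq (hgen t i) χ (hweil t i χ) r
    rw [← hr']
    exact mem_valueField χ r'
  unfold valueField
  rw [IntermediateField.adjoin_le_iff]
  rintro _ ⟨r, rfl⟩
  exact h1 r

omit [∀ t, NumberField (L t)] in
theorem block_sep [Fintype τ] [∀ t, Fintype (ι t)] {q : ℕ} (hq : q ≠ 0)
    (hgen : ∀ t i, Algebra.adjoin ℚ {π t i} = ⊤)
    (hweil : ∀ t i, ∀ χ : K t i →+* ℂ, ‖χ (π t i)‖ ^ 2 = q)
    (hsep : Separated (L := L) K) (x y : Emb (Fld K)) (hxy : block L y ≠ block L x) :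
    ∃ g ∈ egal (Fld K), (∀ z, block L z = block L x → g z = z) ∧ g y = einv y := by
  obtain ⟨⟨u, j⟩, χ⟩ := y
  obtain ⟨⟨t, i⟩, ψ⟩ := x
  have h1 := hsep t (ψ.comp (algebraMap (L t) (K t i))) u j χ hxy
  obtain ⟨σ, hσ, hσχ⟩ := exists_aut _ (overField_le_algebraic t _) χ (fun r => embext χ r)
    (fun r => exists_conj hq (hgen u j) χ (hweil u j χ) r) h1
  refine ⟨eperm σ, ⟨σ, rfl⟩, ?_, ?_⟩
  · rintro ⟨⟨t', i'⟩, ψ'⟩ hz
    have hz' : (⟨t', ψ'.comp (algebraMap (L t') (K t' i'))⟩ : Σ t, (L t →+* ℂ)) =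
      ⟨t, ψ.comp (algebraMap (L t) (K t i))⟩ := hz
    have ht : t' = t := congrArg Sigma.fst hz'
    subst ht
    have h2 : ψ'.comp (algebraMap (L t') (K t' i')) = ψ.comp (algebraMap (L t') (K t' i)) :=
      eq_of_heq (Sigma.mk.inj hz').2
    rw [eperm_apply]
    have h3 : σ.comp ψ' = ψ' := by
      refine RingHom.ext fun r => ?_
      exact hσ _ (valueField_le_overField t' _ i' ψ' h2 (mem_valueField ψ' r))
    change (⟨⟨t', i'⟩, σ.comp ψ'⟩ : Emb (Fld K)) = ⟨⟨t', i'⟩, ψ'⟩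
    rw [h3]
  · rw [eperm_apply]
    change (⟨⟨u, j⟩, σ.comp χ⟩ : Emb (Fld K)) = ⟨⟨u, j⟩, (starRingEnd ℂ).comp χ⟩
    rw [hσχ]

omit [∀ t, NumberField (L t)] [∀ t i, NumberField (K t i)] in
theorem block_mem_iff (t : τ) (i : ι t) (ρ : L t →+* ℂ) (χ : K t i →+* ℂ) :
    block L (⟨⟨t, i⟩, χ⟩ : Emb (Fld K)) = ⟨t, ρ⟩ ↔ χ.comp (algebraMap (L t) (K t i)) = ρ := by
  constructor
  · intro h
    exact eq_of_heq (Sigma.mk.inj h).2
  · rintro rfl
    rfl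

theorem block_pow (hdeg : ∀ t i, ∃ n : ℕ, finrank (L t) (K t i) = 2 ^ n) (x : Emb (Fld K)) :
    ∃ n : ℕ, {y : Emb (Fld K) | block L y = block L x ∧ y.1 = x.1}.ncard = 2 ^ n := by
  obtain ⟨⟨t, i⟩, χ⟩ := x
  obtain ⟨n, hn⟩ := hdeg t i
  refine ⟨n, ?_⟩
  set ρ := χ.comp (algebraMap (L t) (K t i)) with hρ
  have h1 : {y : Emb (Fld K) | block L y = block L (⟨⟨t, i⟩, χ⟩ : Emb (Fld K)) ∧
      y.1 = (⟨t, i⟩ : Idx ι)} =
      Set.range fun χ : Over (K t i) ρ => (⟨⟨t, i⟩, χ.1⟩ : Emb (Fld K)) := by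
    ext ⟨s, χ'⟩
    constructor
    · rintro ⟨h2, h3⟩
      have h3' : s = ⟨t, i⟩ := h3
      subst h3'
      exact ⟨⟨χ', (block_mem_iff t i ρ χ').mp h2⟩, rfl⟩
    · rintro ⟨χ'', h⟩
      have h3 : (⟨t, i⟩ : Idx ι) = s := congrArg Sigma.fst h
      subst h3
      have h4 : χ''.1 = χ' := eq_of_heq (Sigma.mk.inj h).2
      refine ⟨(block_mem_iff t i ρ χ').mpr ?_, rfl⟩
      rw [← h4]
      exact χ''.2
  change {y : Emb (Fld K) | block L y = block L (⟨⟨t, i⟩, χ⟩ : Emb (Fld K)) ∧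
      y.1 = (⟨t, i⟩ : Idx ι)}.ncard = 2 ^ n
  rw [h1, Set.ncard_range_of_injective, card_over, hn]
  intro χ₁ χ₂ h
  exact Subtype.ext (eq_of_heq (Sigma.mk.inj h).2)

/-- The hypothesis on slopes. -/
def GoodPlace (L : τ → Type) [∀ t, Field (L t)] [∀ t i, Algebra (L t) (K t i)]
    (π : ∀ t i, K t i) (p : ℕ) [Fact p.Prime] (a : ℕ) (t : τ) (ρ : L t →+* PadicAlgCl p)
    (s : ℝ) : Prop :=
  ∀ i, ∀ ψ : K t i →+* PadicAlgCl p, ψ.comp (algebraMap (L t) (K t i)) = ρ →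
    ∃ r : ℤ, Odd r ∧ ‖ψ (π t i)‖ ^ 2 = ‖((p ^ a : ℕ) : PadicAlgCl p)‖ ^ (1 + s * r)

/-- Integral weights over a good place. -/
theorem weight_of_good {p : ℕ} [Fact p.Prime] {a : ℕ} (ha : 0 < a) {t : τ}
    {ρ : L t →+* PadicAlgCl p} {s : ℝ} (hs : GoodPlace L π p a t ρ s)
    (ip : AA →+* PadicAlgCl p) {N : ℕ} {w : Emb (Fld K) → ℤ}
    (hw : ∀ x : Emb (Fld K), ‖ip (lft x.2 (π x.1.1 x.1.2))‖ ^ (2 * N) =
      ‖((p ^ a : ℕ) : PadicAlgCl p)‖ ^ ((N : ℤ) + w x))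
    {ρ₁ : L t →+* ℂ} (hρ₁ : ip.comp (lft ρ₁) = ρ) (y : Emb (Fld K))
    (hy : block L y = ⟨t, ρ₁⟩) : ∃ r : ℤ, Odd r ∧ (w y : ℝ) = (N * s) * r := by
  obtain ⟨⟨t', i⟩, χ⟩ := y
  have ht : t' = t := congrArg Sigma.fst hy
  subst ht
  have hχ := (block_mem_iff t' i ρ₁ χ).mp hy
  obtain ⟨r, hr, h1⟩ := hs i (ip.comp (lft χ)) (by
    rw [← hρ₁, ← hχ]
    rfl)
  refine ⟨r, hr, ?_⟩
  have h2 := hw ⟨⟨t', i⟩, χ⟩
  have hq0 := norm_q_pos p a
  have hq1 := norm_q_lt p ha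
  have h3 : ‖ip (lft χ (π t' i))‖ ^ (2 * N) =
      ‖((p ^ a : ℕ) : PadicAlgCl p)‖ ^ ((1 + s * r) * N) := by
    rw [pow_mul, Real.rpow_mul hq0.le, Real.rpow_natCast]
    congr 1
  have h4 : ‖((p ^ a : ℕ) : PadicAlgCl p)‖ ^ (((N : ℤ) + w ⟨⟨t', i⟩, χ⟩ : ℤ) : ℝ) =
      ‖((p ^ a : ℕ) : PadicAlgCl p)‖ ^ ((1 + s * r) * N) := by
    rw [Real.rpow_intCast, ← h3]
    exact h2.symm
  have h5 := (Real.rpow_right_inj hq0 hq1.ne).mp h4
  push_cast at h5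
  linear_combination h5

/-- The number `q` is not the square of a value. -/
theorem sq_ne {p : ℕ} [Fact p.Prime] {a : ℕ} (ha : 0 < a)
    (hslope : ∀ t, ∃ (ρ : L t →+* PadicAlgCl p) (s : ℝ), s ≠ 0 ∧ GoodPlace L π p a t ρ s)
    (x : Emb (Fld K)) : x.2 (π x.1.1 x.1.2) ^ 2 ≠ ((p ^ a : ℕ) : ℂ) := by
  intro h
  obtain ⟨⟨t, i⟩, χ⟩ := x
  obtain ⟨ρ, s, hs0, hs⟩ := hslope t
  have h1 : π t i ^ 2 = ((p ^ a : ℕ) : K t i) := by
    apply χ.injective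
    rw [map_pow, map_natCast]
    exact h
  obtain ⟨ip⟩ := exists_embedding (PadicAlgCl p)
  obtain ⟨ρ₁, hρ₁⟩ := (comp_lft_bijective (K := L t) ip).2 ρ
  have h2 : 0 < Nat.card (Over (K t i) ρ₁) := by
    rw [card_over]
    exact finrank_pos
  obtain ⟨ψ⟩ := (Nat.card_pos_iff.mp h2).1
  obtain ⟨r, hr, h3⟩ := hs i (ip.comp (lft ψ.1)) (by
    have h4 : (ip.comp (lft ψ.1)).comp (algebraMap (L t) (K t i)) =
      ip.comp (lft (ψ.1.comp (algebraMap (L t) (K t i)))) := rfl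
    rw [h4, ψ.2]
    exact hρ₁)
  have hq0 := norm_q_pos p a
  have hq1 := norm_q_lt p ha
  rw [← norm_pow, ← map_pow, h1, map_natCast] at h3
  have h4 : ‖((p ^ a : ℕ) : PadicAlgCl p)‖ ^ (1 : ℝ) =
      ‖((p ^ a : ℕ) : PadicAlgCl p)‖ ^ (1 + s * r) := by
    rw [Real.rpow_one]
    exact h3
  have h5 := (Real.rpow_right_inj hq0 hq1.ne).mp h4
  have h6 : s * r = 0 := by linarith
  rcases mul_eq_zero.mp h6 with h7 | h7
  · exact hs0 h7
  · have h8 : r = 0 := by exact_mod_cast h7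
    rw [h8] at hr
    exact absurd hr (by decide)

end

section

variable {τ : Type} [Fintype τ] {ι : τ → Type} [∀ t, Fintype (ι t)] {L : τ → Type}
  [∀ t, Field (L t)]
  [∀ t, NumberField (L t)] {K : ∀ t, ι t → Type} [∀ t i, Field (K t i)]
  [∀ t i, NumberField (K t i)] [∀ t i, Algebra (L t) (K t i)] {π : ∀ t i, K t i}

/-- The sign condition from the discriminants. -/
theorem odd_of_discr {q : ℕ} (hq : q ≠ 0)
    (hgen : ∀ t i, Algebra.adjoin ℚ {π t i} = ⊤)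
    (hweil : ∀ t i, ∀ χ : K t i →+* ℂ, ‖χ (π t i)‖ ^ 2 = q)
    (hsep : Separated (L := L) K)
    {κ : ∀ t, ι t → Type} [∀ t i, Fintype (κ t i)] [∀ t i, DecidableEq (κ t i)]
    (b : ∀ t i, Basis (κ t i) (L t) (K t i))
    (hdisc : ∀ t, ∀ S : Finset (ι t), S.Nonempty →
      ¬ IsSquare (∏ i ∈ S, Algebra.discr (L t) (b t i)))
    (t : τ) (ρ : L t →+* ℂ) (r : Emb (Fld K) → ℤ)
    (hr : ∀ y, block L y = ⟨t, ρ⟩ → r y ≠ 0 ∧ r (einv y) = - r y) (S : Set (Idx ι))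
    (hS : ∃ y : Emb (Fld K), block L y = ⟨t, ρ⟩ ∧ y.1 ∈ S) :
    ∃ g ∈ egal (Fld K), (∀ y, block L y = ⟨t, ρ⟩ → block L (g y) = ⟨t, ρ⟩) ∧
      ∃ F : Finset (Emb (Fld K)),
        (∀ y, y ∈ F ↔ block L y = ⟨t, ρ⟩ ∧ 0 < r y ∧ y.1 ∈ S ∧ r (g y) < 0) ∧ Odd F.card := by
  classical
  by_contra hcon
  push Not at hcon
  let T : Finset (ι t) := univ.filter fun i => (⟨t, i⟩ : Idx ι) ∈ S
  have hTm : ∀ i, i ∈ T ↔ (⟨t, i⟩ : Idx ι) ∈ S := fun i => by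
    rw [mem_filter]
    exact and_iff_right (mem_univ i)
  have hT : T.Nonempty := by
    obtain ⟨⟨⟨t', i⟩, χ⟩, hy, hyS⟩ := hS
    have ht : t' = t := congrArg Sigma.fst hy
    subst ht
    exact ⟨i, (hTm i).mpr hyS⟩
  let Φ : ∀ i, Finset (K t i →+* ℂ) := fun i =>
    univ.filter fun χ => 0 < r (⟨⟨t, i⟩, χ⟩ : Emb (Fld K))
  have hΦm : ∀ i χ, χ ∈ Φ i ↔ 0 < r (⟨⟨t, i⟩, χ⟩ : Emb (Fld K)) := fun i χ => by
    rw [mem_filter]
    exact and_iff_right (mem_univ χ)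
  have hcjinv : ∀ i (χ : K t i →+* ℂ), (starRingEnd ℂ).comp ((starRingEnd ℂ).comp χ) = χ := by
    intro i χ
    ext a
    simp
  have hbinv := block_inv hq hgen hweil hsep
  have hcomm : ∀ g ∈ egal (Fld K), ∀ x, g (einv x) = einv (g x) :=
    eperm_comm (K := Fld K) (π := fun x => π x.1 x.2) hq (fun x => hweil x.1 x.2)
      (fun x => hgen x.1 x.2)
  have hD : ∀ i, ∃ D : ℂ, D ^ 2 = ρ (Algebra.discr (L t) (b t i)) ∧ ∀ σ : ℂ →+* ℂ,
      σ.comp ρ = ρ →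
      (∀ χ : K t i →+* ℂ, χ.comp (algebraMap (L t) (K t i)) = ρ →
        σ.comp ((starRingEnd ℂ).comp χ) = (starRingEnd ℂ).comp (σ.comp χ)) →
      ∀ F : Finset (K t i →+* ℂ),
        (∀ χ, χ ∈ F ↔ χ.comp (algebraMap (L t) (K t i)) = ρ ∧ χ ∈ Φ i ∧ σ.comp χ ∉ Φ i) →
        σ D = (-1) ^ F.card * D := by
    intro i
    refine exists_relsqrt ρ (b t i) (fun χ => (starRingEnd ℂ).comp χ) ?_ ?_ (Φ i) ?_
    · intro χ _
      exact hcjinv i χ
    · intro χ hχ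
      have h1 := hbinv (⟨⟨t, i⟩, χ⟩ : Emb (Fld K))
      rw [(block_mem_iff t i ρ χ).mpr hχ] at h1
      exact (block_mem_iff t i ρ _).mp h1
    · intro χ hχ
      rw [hΦm, hΦm]
      obtain ⟨h1, h2⟩ := hr (⟨⟨t, i⟩, χ⟩ : Emb (Fld K)) ((block_mem_iff t i ρ χ).mpr hχ)
      change 0 < r (einv (⟨⟨t, i⟩, χ⟩ : Emb (Fld K))) ↔ _
      rw [h2]
      omega
  choose D hD2 hDσ using hD
  have hfix : ∀ σ : ℂ →+* ℂ, σ.comp ρ = ρ → σ (∏ i ∈ T, D i) = ∏ i ∈ T, D i := by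
    intro σ hσ
    have hσb : ∀ y : Emb (Fld K), block L y = ⟨t, ρ⟩ → block L (eperm σ y) = ⟨t, ρ⟩ := by
      intro y hy
      rw [eperm_apply]
      refine (block_act (L := L) (K := K) σ y).trans ?_
      rw [hy]
      change (⟨t, σ.comp ρ⟩ : Σ t, (L t →+* ℂ)) = ⟨t, ρ⟩
      rw [hσ]
    let G : ∀ i, Finset (K t i →+* ℂ) := fun i =>
      univ.filter fun χ => χ.comp (algebraMap (L t) (K t i)) = ρ ∧ χ ∈ Φ i ∧ σ.comp χ ∉ Φ i
    have hG : ∀ i χ, χ ∈ G i ↔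
        χ.comp (algebraMap (L t) (K t i)) = ρ ∧ χ ∈ Φ i ∧ σ.comp χ ∉ Φ i := fun i χ => by
      rw [mem_filter]
      exact and_iff_right (mem_univ χ)
    have h1 : ∀ i ∈ T, σ (D i) = (-1) ^ (G i).card * D i := by
      intro i _
      refine hDσ i σ hσ (fun χ _ => ?_) (G i) (hG i)
      have h2 := hcomm (eperm σ) ⟨σ, rfl⟩ (⟨⟨t, i⟩, χ⟩ : Emb (Fld K))
      exact eq_of_heq (Sigma.mk.inj h2).2
    let F : Finset (Emb (Fld K)) := T.biUnion fun i =>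
      (G i).map ⟨fun χ => (⟨⟨t, i⟩, χ⟩ : Emb (Fld K)), emb_mk_inj (K := Fld K) ⟨t, i⟩⟩
    have hF : F.card = ∑ i ∈ T, (G i).card := by
      rw [card_biUnion]
      · refine sum_congr rfl fun i _ => ?_
        rw [card_map]
      · intro i _ j _ hij
        rw [Function.onFun, Finset.disjoint_left]
        intro y hy hy'
        rw [mem_map] at hy hy'
        obtain ⟨χ, -, rfl⟩ := hy
        obtain ⟨χ', -, h⟩ := hy'
        apply hij
        have h2 : (⟨t, j⟩ : Idx ι) = ⟨t, i⟩ := congrArg Sigma.fst h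
        exact (eq_of_heq (Sigma.mk.inj h2).2).symm
    have h2 := hcon (eperm σ) ⟨σ, rfl⟩ hσb F (by
      rintro ⟨⟨t', i⟩, χ⟩
      constructor
      · intro hy
        rw [mem_biUnion] at hy
        obtain ⟨i', hi', hy⟩ := hy
        rw [mem_map] at hy
        obtain ⟨χ', hχ', h⟩ := hy
        rw [hG, hΦm, hΦm] at hχ'
        obtain ⟨h3, h4, h5⟩ := hχ'
        rw [← h]
        refine ⟨(block_mem_iff t i' ρ χ').mpr h3, h4, (hTm i').mp hi', ?_⟩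
        have h6 := (hr _ (hσb _ ((block_mem_iff t i' ρ χ').mpr h3))).1
        change ¬ 0 < r (eperm σ ⟨⟨t, i'⟩, χ'⟩) at h5
        change r (eperm σ ⟨⟨t, i'⟩, χ'⟩) < 0
        omega
      · rintro ⟨h3, h4, h5, h6⟩
        have ht : t' = t := congrArg Sigma.fst h3
        subst ht
        rw [mem_biUnion]
        refine ⟨i, (hTm i).mpr h5, ?_⟩
        rw [mem_map]
        refine ⟨χ, ?_, rfl⟩
        rw [hG, hΦm, hΦm]
        refine ⟨(block_mem_iff t' i ρ χ).mp h3, h4, ?_⟩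
        change ¬ 0 < r (eperm σ ⟨⟨t', i⟩, χ⟩)
        omega)
    rw [Nat.not_odd_iff_even, hF] at h2
    rw [_root_.map_prod, prod_congr rfl h1, prod_mul_distrib, prod_pow_eq_pow_sum,
      h2.neg_one_pow, one_mul]
  have hsq : (∏ i ∈ T, D i) ^ 2 = ρ (∏ i ∈ T, Algebra.discr (L t) (b t i)) := by
    rw [← prod_pow, _root_.map_prod]
    exact prod_congr rfl fun i _ => hD2 i
  have hint : IsIntegral ℚ (∏ i ∈ T, D i) := by
    refine IsIntegral.of_pow (n := 2) (by norm_num) ?_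
    rw [hsq]
    have h1 : IsIntegral ℚ (∏ i ∈ T, Algebra.discr (L t) (b t i)) :=
      Algebra.IsIntegral.isIntegral _
    exact h1.map ρ.toRatAlgHom
  obtain ⟨c, hc⟩ := mem_range_of_fixed ρ hint hfix
  apply hdisc t T hT
  refine ⟨c, ρ.injective ?_⟩
  rw [← hsq, ← hc, map_mul, sq]

/-- **Theorem**: separated towers with independent relative discriminants. -/
theorem tate_of_towers {p a : ℕ} [Fact p.Prime] (ha : 0 < a)
    (hgen : ∀ t i, Algebra.adjoin ℚ {π t i} = ⊤)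
    (hweil : ∀ t i, ∀ χ : K t i →+* ℂ, ‖χ (π t i)‖ ^ 2 = (p ^ a : ℕ))
    (hsep : Separated (L := L) K)
    (hdeg : ∀ t i, ∃ n : ℕ, finrank (L t) (K t i) = 2 ^ n)
    {κ : ∀ t, ι t → Type} [∀ t i, Fintype (κ t i)] [∀ t i, DecidableEq (κ t i)]
    (b : ∀ t i, Basis (κ t i) (L t) (K t i))
    (hdisc : ∀ t, ∀ S : Finset (ι t), S.Nonempty →
      ¬ IsSquare (∏ i ∈ S, Algebra.discr (L t) (b t i)))
    (hslope : ∀ t, ∃ (ρ : L t →+* PadicAlgCl p) (s : ℝ), s ≠ 0 ∧ GoodPlace L π p a t ρ s)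
    {𝕂 H : Type*} [Field 𝕂] [CharZero 𝕂] [AddCommGroup H] [Module 𝕂 H] {F : Module.End 𝕂 H}
    (hF : ⨆ μ, F.eigenspace μ = ⊤)
    (heig : ∀ μ, F.HasEigenvalue μ → ∃ t i, ∃ χ : K t i →+* 𝕂, χ (π t i) = μ) {n : ℕ}
    (hn : n ≠ 0) (j : ℕ) : tateClasses F (p ^ a) n j = tateClasses F (p ^ a) 1 1 ^ j := by
  classical
  have hp : p.Prime := Fact.out
  have hq : p ^ a ≠ 0 := pow_ne_zero _ hp.ne_zero
  obtain ⟨ip⟩ := exists_embedding (PadicAlgCl p)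
  have hgen' : ∀ x : Idx ι, Algebra.adjoin ℚ {π x.1 x.2} = ⊤ := fun x => hgen x.1 x.2
  have hweil' : ∀ x : Idx ι, ∀ χ : K x.1 x.2 →+* ℂ, ‖χ (π x.1 x.2)‖ ^ 2 = (p ^ a : ℕ) :=
    fun x => hweil x.1 x.2
  have hπ0 : ∀ x : Idx ι, π x.1 x.2 ≠ 0 := by
    intro x h0
    obtain ⟨χ⟩ : Nonempty (K x.1 x.2 →+* ℂ) := inferInstance
    have h1 := hweil x.1 x.2 χ
    rw [h0, _root_.map_zero, norm_zero] at h1
    have h2 : ((p ^ a : ℕ) : ℝ) ≠ 0 := by exact_mod_cast hq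
    apply h2
    rw [← h1]
    norm_num
  obtain ⟨N, w, hN, hw⟩ := exists_int_weight (K := Fld K) (π := fun x => π x.1 x.2)
    (p := p) ha.ne' ip hπ0
  refine tate_eq hF (by exact_mod_cast hq) hn j fun S hS hcard hprod => ?_
  refine exists_pairing (K := Fld K) (π := fun x => π x.1 x.2) hq hweil' (sq_ne ha hslope) ?_ hn
    S (fun μ hμ => ?_) hcard hprod
  swap
  · obtain ⟨t, i, χ, hχ⟩ := heig μ (hS μ hμ)
    exact ⟨⟨t, i⟩, χ, hχ⟩
  intro j n hn S hcard hprod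
  refine count_eq (K := Fld K) (π := fun x => π x.1 x.2) hq hweil' hgen' ip (norm_q_pos p a)
    (norm_q_lt p ha) w hw ?_ hn S hcard hprod
  intro hwinv c hc hrel
  have hcomm := eperm_comm (K := Fld K) (π := fun x => π x.1 x.2) hq hweil' hgen'
  refine tower_criterion (egal (Fld K)) (fun x => x.1) (block L) ?_ htr_of_conj einv einv_einv
    hcomm ?_ (block_inv hq hgen hweil hsep) (block_sep hq hgen hweil hsep) (block_pow hdeg) w
    hwinv ?_ c hc hrel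
  · rintro _ ⟨σ, rfl⟩ x
    rfl
  · rintro _ ⟨σ, rfl⟩ x y hxy
    rw [eperm_apply, eperm_apply]
    refine (block_act (L := L) (K := K) σ x).trans ?_
    refine Eq.trans ?_ (block_act (L := L) (K := K) σ y).symm
    rw [hxy]
  · rintro ⟨⟨t, i⟩, χ⟩
    obtain ⟨ρ, s, hs0, hs⟩ := hslope t
    obtain ⟨ρ₁, hρ₁⟩ := (comp_lft_bijective (K := L t) ip).2 ρ
    obtain ⟨σ, hσ⟩ := exists_comp_eq (χ.comp (algebraMap (L t) (K t i))) ρ₁
    have hblk : block L (eperm σ (⟨⟨t, i⟩, χ⟩ : Emb (Fld K))) = ⟨t, ρ₁⟩ := by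
      rw [eperm_apply]
      exact (block_mem_iff t i ρ₁ _).mpr (by rw [← hσ]; rfl)
    have hN0 : (N : ℝ) * s ≠ 0 := mul_ne_zero (by exact_mod_cast hN) hs0
    have hex : ∀ y : Emb (Fld K), ∃ r : ℤ, block L y = ⟨t, ρ₁⟩ →
        Odd r ∧ (w y : ℝ) = (N * s) * r := by
      intro y
      by_cases hy : block L y = ⟨t, ρ₁⟩
      · obtain ⟨r, hr⟩ := weight_of_good ha hs ip hw hρ₁ y hy
        exact ⟨r, fun _ => hr⟩
      · exact ⟨0, fun h => absurd h hy⟩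
    choose r hr using hex
    refine ⟨eperm σ, ⟨σ, rfl⟩, N * s, r, hN0, ?_, ?_⟩
    · intro y hy
      rw [hblk] at hy
      exact hr y hy
    · rw [hblk]
      intro S hS
      refine odd_of_discr hq hgen hweil hsep b hdisc t ρ₁ r ?_ S hS
      intro y hy
      have h1 := hr y hy
      have h2 := hr (einv y) (by rw [block_inv hq hgen hweil hsep]; exact hy)
      refine ⟨?_, ?_⟩
      · intro h0
        rw [h0] at h1
        exact absurd h1.1 (by decide)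
      · have h3 := h2.2
        rw [hwinv] at h3
        push_cast at h3
        rw [h1.2] at h3
        have h4 : (r (einv y) : ℝ) = - r y := by
          apply mul_left_cancel₀ hN0
          rw [← h3]
          ring
        exact_mod_cast h4

end

end Pool.Agent.CMTower
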